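import Pool.Agent.Run7.h670.MY.Stm

/-! Piece BALL of the project MY of helper670: the potential of a set of given volume. -/

set_option autoImplicit false

open MeasureTheory Set
open scoped ENNReal

namespace Pool.Agent.Run7.h799.MY

open Pool.Agent.Run7.h670.MY

/-- The volume of the unit ball. -/
noncomputable def om : ℝ := Real.pi * 4 / 3

theorem om_pos : 0 < om := by unfold om; positivity

theorem cB_eq : cB = 3 * om ^ (2 / 3 : ℝ) := by
  have h0 := om_pos
  have h1 : (3 / (4 * Real.pi) : ℝ) = om⁻¹ := by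
    unfold om
    field_simp
  have h2 : 4 * Real.pi = 3 * om := by
    unfold om
    ring
  unfold cB
  rw [h1, Real.inv_rpow h0.le, ← Real.rpow_neg h0.le, h2, mul_assoc]
  congr 1
  nth_rewrite 1 [← Real.rpow_one om]
  rw [← Real.rpow_add h0]
  congr 1
  norm_num

theorem level_vol (A : Set E) (y : E) (t : ℝ) (ht : 0 < t) :
    (volume.restrict A) {x : E | t < (‖x - y‖ ^ 2)⁻¹} ≤
      min (volume A) (ENNReal.ofReal (om * t ^ (-(3 / 2) : ℝ))) := by
  refine le_min ?_ ?_
  · calc (volume.restrict A) {x : E | t < (‖x - y‖ ^ 2)⁻¹} ≤ (volume.restrict A) univ :=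
          measure_mono (subset_univ _)
      _ = volume A := by rw [Measure.restrict_apply_univ]
  · have hsub : {x : E | t < (‖x - y‖ ^ 2)⁻¹} ⊆ Metric.ball y (√(t⁻¹)) := by
      intro x hx
      have hx' : t < (‖x - y‖ ^ 2)⁻¹ := hx
      rw [Metric.mem_ball, dist_eq_norm]
      have h1 : 0 < (‖x - y‖ ^ 2)⁻¹ := ht.trans hx'
      have h2 : ‖x - y‖ ^ 2 < t⁻¹ := by
        have h3 := inv_strictAnti₀ ht hx'
        rwa [inv_inv] at h3
      exact Real.lt_sqrt_of_sq_lt h2
    calc (volume.restrict A) {x : E | t < (‖x - y‖ ^ 2)⁻¹} ≤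
          volume {x : E | t < (‖x - y‖ ^ 2)⁻¹} := Measure.restrict_apply_le _ _
      _ ≤ volume (Metric.ball y (√(t⁻¹))) := measure_mono hsub
      _ = ENNReal.ofReal (om * t ^ (-(3 / 2) : ℝ)) := by
        rw [EuclideanSpace.volume_ball_fin_three, ← ENNReal.ofReal_pow (Real.sqrt_nonneg _),
          ← ENNReal.ofReal_mul (by positivity)]
        congr 1
        rw [mul_comm]
        congr 1
        rw [Real.sqrt_eq_rpow, ← Real.rpow_natCast, ← Real.rpow_mul (by positivity),
          Real.inv_rpow ht.le, ← Real.rpow_neg ht.le]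
        congr 1
        norm_num

theorem tail_int (t0 : ℝ) (h0 : 0 < t0) :
    ∫⁻ t in Ioi t0, ENNReal.ofReal (om * t ^ (-(3 / 2) : ℝ)) =
      ENNReal.ofReal (2 * om * t0 ^ (-(1 / 2) : ℝ)) := by
  have hint : IntegrableOn (fun t : ℝ => om * t ^ (-(3 / 2) : ℝ)) (Ioi t0) :=
    (integrableOn_Ioi_rpow_of_lt (by norm_num) h0).const_mul om
  rw [← ofReal_integral_eq_lintegral_ofReal hint]
  · congr 1
    rw [integral_const_mul, integral_Ioi_rpow_of_lt (by norm_num) h0]
    have e : (-(3 / 2) + 1 : ℝ) = -(1 / 2) := by norm_num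
    rw [e]
    field_simp
  · refine (ae_restrict_iff' measurableSet_Ioi).2 (Filter.Eventually.of_forall ?_)
    intro t ht
    have h1 : 0 < t := h0.trans ht
    have := om_pos
    simp only [Pi.zero_apply]
    positivity

theorem t_BALL : S_BALL := by
  intro A y hA hfin
  by_cases hz : volume A = 0
  · rw [Measure.restrict_eq_zero.2 hz, lintegral_zero_measure]
    exact bot_le
  set V : ℝ := (volume A).toReal with hV
  have hVpos : 0 < V := ENNReal.toReal_pos hz hfin
  have hVe : volume A = ENNReal.ofReal V := (ENNReal.ofReal_toReal hfin).symm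
  have hom := om_pos
  set t0 : ℝ := (om / V) ^ (2 / 3 : ℝ) with ht0
  have ht0pos : 0 < t0 := by positivity
  have hm : Measurable (fun x : E => (‖x - y‖ ^ 2)⁻¹) := by fun_prop
  rw [lintegral_eq_lintegral_meas_lt (volume.restrict A)
    (Filter.Eventually.of_forall (fun x => by simp only [Pi.zero_apply]; positivity))
    hm.aemeasurable]
  have hsplit : Ioi (0 : ℝ) = Ioc 0 t0 ∪ Ioi t0 := (Ioc_union_Ioi_eq_Ioi ht0pos.le).symm
  calc ∫⁻ t in Ioi 0, (volume.restrict A) {x : E | t < (‖x - y‖ ^ 2)⁻¹}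
      ≤ ∫⁻ t in Ioi (0 : ℝ), min (volume A) (ENNReal.ofReal (om * t ^ (-(3 / 2) : ℝ))) := by
        refine setLIntegral_mono' measurableSet_Ioi ?_
        intro t ht
        exact level_vol A y t ht
    _ ≤ (∫⁻ t in Ioc 0 t0, min (volume A) (ENNReal.ofReal (om * t ^ (-(3 / 2) : ℝ)))) +
        ∫⁻ t in Ioi t0, min (volume A) (ENNReal.ofReal (om * t ^ (-(3 / 2) : ℝ))) := by
        rw [hsplit]
        exact lintegral_union_le _ _ _
    _ ≤ (∫⁻ _ in Ioc 0 t0, volume A) +
        ∫⁻ t in Ioi t0, ENNReal.ofReal (om * t ^ (-(3 / 2) : ℝ)) := by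
        refine add_le_add (lintegral_mono (fun t => min_le_left _ _))
          (lintegral_mono (fun t => min_le_right _ _))
    _ = ENNReal.ofReal cB * volume A ^ (1 / 3 : ℝ) := by
        rw [setLIntegral_const, Real.volume_Ioc, sub_zero, tail_int t0 ht0pos, hVe,
          ← ENNReal.ofReal_mul hVpos.le, ← ENNReal.ofReal_add (by positivity) (by positivity),
          ENNReal.ofReal_rpow_of_pos hVpos, ← ENNReal.ofReal_mul (by rw [cB_eq]; positivity)]
        congr 1
        rw [cB_eq]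
        have e1 : V * t0 = om ^ (2 / 3 : ℝ) * V ^ (1 / 3 : ℝ) := by
          rw [ht0, Real.div_rpow hom.le hVpos.le]
          have h1 : V = V ^ (1 / 3 : ℝ) * V ^ (2 / 3 : ℝ) := by
            rw [← Real.rpow_add hVpos]
            norm_num
          have h2 : 0 < V ^ (2 / 3 : ℝ) := by positivity
          nth_rewrite 1 [h1]
          field_simp
        have e2 : t0 ^ (-(1 / 2) : ℝ) = om ^ (-(1 / 3) : ℝ) * V ^ (1 / 3 : ℝ) := by
          rw [ht0, ← Real.rpow_mul (by positivity), Real.div_rpow hom.le hVpos.le]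
          have h1 : ((2 / 3 : ℝ) * -(1 / 2)) = -(1 / 3) := by norm_num
          rw [h1, Real.rpow_neg hVpos.le]
          field_simp
        have e3 : om * om ^ (-(1 / 3) : ℝ) = om ^ (2 / 3 : ℝ) := by
          nth_rewrite 1 [← Real.rpow_one om]
          rw [← Real.rpow_add hom]
          norm_num
        rw [e1, e2]
        calc om ^ (2 / 3 : ℝ) * V ^ (1 / 3 : ℝ) + 2 * om * (om ^ (-(1 / 3) : ℝ) * V ^ (1 / 3 : ℝ))
            = om ^ (2 / 3 : ℝ) * V ^ (1 / 3 : ℝ) +
              2 * (om * om ^ (-(1 / 3) : ℝ)) * V ^ (1 / 3 : ℝ) := by ring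
          _ = 3 * om ^ (2 / 3 : ℝ) * V ^ (1 / 3 : ℝ) := by rw [e3]; ring

end Pool.Agent.Run7.h799.MY
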