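import Pool.Agent.Run7.h670.MY.Stm

/-! Piece BAR of the project MY of helper670: the conformal barycentre. -/

set_option autoImplicit false

open MeasureTheory Set
open scoped ENNReal Topology

namespace Pool.Agent.Run7.h799.MY

open Pool.Agent.Run7.h670.MY

/-- the denominator -/
noncomputable def DD (p q c : ℝ) (z : ℝ × ℝ) : ℝ := c ^ 2 + (z.1 - p) ^ 2 + (z.2 - q) ^ 2

theorem DD_pos (p q c : ℝ) (z : ℝ × ℝ) (hc : 0 < c) : 0 < DD p q c z := by
  unfold DD; positivity

/-- the integrand -/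
noncomputable def FF (p q y : ℝ) (z : ℝ × ℝ) : ℝ :=
  Real.log (DD p q (Real.exp y) z) - y - Real.log (1 + z.1 ^ 2 + z.2 ^ 2)

/-- the weight -/
noncomputable def WW (p q y : ℝ) : ℝ :=
  (1 + Real.exp y ^ 2 + p ^ 2 + q ^ 2) / Real.exp y

theorem WW_pos (p q y : ℝ) : 0 < WW p q y := by
  unfold WW; positivity

theorem WW_ge_one (p q y : ℝ) : 1 ≤ WW p q y := by
  unfold WW
  have h := Real.exp_pos y
  rw [le_div_iff₀ h]
  nlinarith [sq_nonneg (Real.exp y - 1), sq_nonneg p, sq_nonneg q]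

theorem FF_eq (p q y : ℝ) (z : ℝ × ℝ) :
    FF p q y z = Real.log (WW p q y) + Real.log (qq p q (Real.exp y) z.1 z.2) := by
  have h := Real.exp_pos y
  have hD := DD_pos p q (Real.exp y) z h
  have h1 : 0 < 1 + z.1 ^ 2 + z.2 ^ 2 := by positivity
  have h2 : 0 < 1 + Real.exp y ^ 2 + p ^ 2 + q ^ 2 := by positivity
  unfold FF WW qq
  rw [Real.log_div h2.ne' h.ne', Real.log_exp]
  have h3 : Real.exp y ^ 2 + (z.1 - p) ^ 2 + (z.2 - q) ^ 2 = DD p q (Real.exp y) z := rfl
  rw [h3, Real.log_div hD.ne' (mul_pos h1 h2).ne', Real.log_mul h1.ne' h2.ne']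
  ring

theorem qq_pos (p q c s t : ℝ) (hc : 0 < c) : 0 < qq p q c s t := by
  unfold qq; positivity

theorem qq_le_one (p q c s t : ℝ) : qq p q c s t ≤ 1 := by
  unfold qq
  rw [div_le_one (by positivity)]
  nlinarith [sq_nonneg (p * s + q * t + 1), sq_nonneg (p * t - q * s), sq_nonneg (c * s),
    sq_nonneg (c * t)]

theorem qq_ge (p q y s t : ℝ) : (WW p q y)⁻¹ ^ 2 ≤ qq p q (Real.exp y) s t := by
  have h := Real.exp_pos y
  unfold WW qq
  set c := Real.exp y
  rw [inv_div, div_pow, div_le_div_iff₀ (by positivity) (by positivity)]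
  have h1 : c ^ 2 * (1 + s ^ 2 + t ^ 2) ≤
      (1 + c ^ 2 + p ^ 2 + q ^ 2) * (c ^ 2 + (s - p) ^ 2 + (t - q) ^ 2) := by
    nlinarith [sq_nonneg (p ^ 2 + q ^ 2 - (p * s + q * t)), sq_nonneg (p * t - q * s),
      sq_nonneg (s - p), sq_nonneg (t - q), sq_nonneg (c ^ 2 - (p * (s - p) + q * (t - q))),
      sq_nonneg (p * (t - q) - q * (s - p))]
  have h2 : 0 < 1 + c ^ 2 + p ^ 2 + q ^ 2 := by positivity
  nlinarith [mul_le_mul_of_nonneg_left h1 h2.le]

theorem FF_le (p q y : ℝ) (z : ℝ × ℝ) : FF p q y z ≤ Real.log (WW p q y) := by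
  rw [FF_eq]
  have h1 := Real.log_nonpos (qq_pos p q (Real.exp y) z.1 z.2 (Real.exp_pos y)).le
    (qq_le_one p q (Real.exp y) z.1 z.2)
  linarith

theorem logqq_ge (p q y : ℝ) (z : ℝ × ℝ) :
    -2 * Real.log (WW p q y) ≤ Real.log (qq p q (Real.exp y) z.1 z.2) := by
  have h1 := qq_ge p q y z.1 z.2
  have h2 := WW_pos p q y
  have h3 := Real.log_le_log (by positivity) h1
  rw [Real.log_pow, Real.log_inv] at h3
  push_cast at h3
  linarith

theorem FF_ge (p q y : ℝ) (z : ℝ × ℝ) : -Real.log (WW p q y) ≤ FF p q y z := by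
  rw [FF_eq]
  have := logqq_ge p q y z
  linarith

theorem FF_abs (p q y : ℝ) (z : ℝ × ℝ) : ‖FF p q y z‖ ≤ Real.log (WW p q y) := by
  rw [Real.norm_eq_abs, abs_le]
  exact ⟨FF_ge p q y z, FF_le p q y z⟩

theorem FF_meas (p q y : ℝ) : Measurable (FF p q y) := by
  unfold FF DD
  fun_prop

theorem FF_int (ν : Measure (ℝ × ℝ)) [IsFiniteMeasure ν] (p q y : ℝ) : Integrable (FF p q y) ν :=
  Integrable.of_bound (FF_meas p q y).aestronglyMeasurable (Real.log (WW p q y))
    (Filter.Eventually.of_forall (FF_abs p q y))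

/-- the functional -/
noncomputable def Phi (ν : Measure (ℝ × ℝ)) (w : ℝ × ℝ × ℝ) : ℝ :=
  ∫ z, FF w.1 w.2.1 w.2.2 z ∂ν

theorem WW_cont : Continuous (fun w : ℝ × ℝ × ℝ => Real.log (WW w.1 w.2.1 w.2.2)) := by
  have h1 : Continuous (fun w : ℝ × ℝ × ℝ => WW w.1 w.2.1 w.2.2) := by
    unfold WW
    refine Continuous.div (by fun_prop) (by fun_prop) (fun w => (Real.exp_pos _).ne')
  exact h1.log (fun w => (WW_pos _ _ _).ne')

theorem FF_cont (z : ℝ × ℝ) : Continuous (fun w : ℝ × ℝ × ℝ => FF w.1 w.2.1 w.2.2 z) := by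
  unfold FF
  have h1 : Continuous (fun w : ℝ × ℝ × ℝ => DD w.1 w.2.1 (Real.exp w.2.2) z) := by
    unfold DD
    fun_prop
  have h2 := h1.log (fun w => (DD_pos w.1 w.2.1 _ z (Real.exp_pos _)).ne')
  exact (h2.sub (by fun_prop)).sub continuous_const

theorem Phi_cont (ν : Measure (ℝ × ℝ)) [IsFiniteMeasure ν] : Continuous (Phi ν) := by
  rw [continuous_iff_continuousAt]
  intro w0
  unfold Phi
  have hev : ∀ᶠ w : ℝ × ℝ × ℝ in 𝓝 w0, Real.log (WW w.1 w.2.1 w.2.2) <
      Real.log (WW w0.1 w0.2.1 w0.2.2) + 1 :=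
    WW_cont.continuousAt.eventually_lt continuousAt_const (by linarith)
  refine continuousAt_of_dominated (bound := fun _ => Real.log (WW w0.1 w0.2.1 w0.2.2) + 1)
    ?_ ?_ ?_ ?_
  · exact Filter.Eventually.of_forall (fun w => (FF_meas _ _ _).aestronglyMeasurable)
  · filter_upwards [hev] with w hw
    refine Filter.Eventually.of_forall (fun z => ?_)
    exact (FF_abs _ _ _ z).trans hw.le
  · exact integrable_const _
  · exact Filter.Eventually.of_forall (fun z => (FF_cont z).continuousAt)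

/-- coercivity -/
theorem Phi_ge (ν : Measure (ℝ × ℝ)) [IsFiniteMeasure ν] (δ : ℝ) (hδ : 0 < δ) (hδ1 : δ ≤ 1)
    (hν : ∀ p q c : ℝ, 0 < c → ν.real {z | qq p q c z.1 z.2 < δ} ≤ ν.real univ / 4)
    (w : ℝ × ℝ × ℝ) :
    ν.real univ / 2 * Real.log (WW w.1 w.2.1 w.2.2) + ν.real univ * Real.log δ ≤ Phi ν w := by
  obtain ⟨p, q, y⟩ := w
  simp only
  set L := Real.log (WW p q y) with hL
  have hL0 : 0 ≤ L := Real.log_nonneg (WW_ge_one p q y)
  set S : Set (ℝ × ℝ) := {z | qq p q (Real.exp y) z.1 z.2 < δ} with hS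
  have hSm : MeasurableSet S := by
    have : Measurable (fun z : ℝ × ℝ => qq p q (Real.exp y) z.1 z.2) := by
      unfold qq
      fun_prop
    exact measurableSet_lt this measurable_const
  have hlδ : Real.log δ ≤ 0 := Real.log_nonpos hδ.le hδ1
  have hpt : ∀ z, (L + Real.log δ) - S.indicator (fun _ => 2 * L) z ≤ FF p q y z := by
    intro z
    rw [FF_eq]
    by_cases hz : z ∈ S
    · rw [indicator_of_mem hz]
      have := logqq_ge p q y z
      linarith
    · rw [indicator_of_notMem hz]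
      have h1 : δ ≤ qq p q (Real.exp y) z.1 z.2 := not_lt.1 hz
      have := Real.log_le_log hδ h1
      linarith
  have hi1 : Integrable (fun _ : ℝ × ℝ => L + Real.log δ) ν := integrable_const _
  have hi2 : Integrable (S.indicator (fun _ : ℝ × ℝ => 2 * L)) ν :=
    (integrable_const _).indicator hSm
  have h1 : ∫ z, ((L + Real.log δ) - S.indicator (fun _ => 2 * L) z) ∂ν ≤ Phi ν (p, q, y) :=
    integral_mono (hi1.sub hi2) (FF_int ν p q y) hpt
  rw [integral_sub hi1 hi2, integral_const, integral_indicator_const _ hSm, smul_eq_mul,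
    smul_eq_mul] at h1
  have h2 := hν p q (Real.exp y) (Real.exp_pos y)
  rw [← hS] at h2
  nlinarith [mul_le_mul_of_nonneg_right h2 hL0]

theorem exists_min (ν : Measure (ℝ × ℝ)) [IsFiniteMeasure ν] (hm : 0 < ν.real univ) (δ : ℝ)
    (hδ : 0 < δ) (hδ1 : δ ≤ 1)
    (hν : ∀ p q c : ℝ, 0 < c → ν.real {z | qq p q c z.1 z.2 < δ} ≤ ν.real univ / 4) :
    ∃ w, ∀ w', Phi ν w ≤ Phi ν w' := by
  set m := ν.real univ with hmm
  set K := Real.exp (2 * (Phi ν 0 / m - Real.log δ)) with hK
  refine (Phi_cont ν).exists_forall_le' 0 ?_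
  have hcb : (Metric.closedBall (0 : ℝ × ℝ × ℝ) K)ᶜ ∈ Filter.cocompact (ℝ × ℝ × ℝ) :=
    (isCompact_closedBall 0 K).compl_mem_cocompact
  filter_upwards [hcb] with w hw
  by_contra hlt
  rw [not_le] at hlt
  apply hw
  have h1 := Phi_ge ν δ hδ hδ1 hν w
  obtain ⟨p, q, y⟩ := w
  simp only at h1
  have h2 : Real.log (WW p q y) < 2 * (Phi ν 0 / m - Real.log δ) := by
    have h3 : m / 2 * Real.log (WW p q y) < Phi ν 0 - m * Real.log δ := by linarith
    have h4 : 2 * (Phi ν 0 / m - Real.log δ) = (Phi ν 0 - m * Real.log δ) / (m / 2) := by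
      field_simp
    rw [h4, lt_div_iff₀ (by positivity)]
    linarith
  have hW : WW p q y < K := by
    rw [hK, ← Real.log_lt_iff_lt_exp (WW_pos _ _ _)]
    exact h2
  have hc := Real.exp_pos y
  have hKp : 0 < K := Real.exp_pos _
  have g1 : 1 + Real.exp y ^ 2 + p ^ 2 + q ^ 2 < K * Real.exp y := by
    have := hW
    unfold WW at this
    rwa [div_lt_iff₀ hc] at this
  have g2 : Real.exp y < K := by nlinarith [sq_nonneg p, sq_nonneg q]
  have g3 : Real.exp (-y) < K := by
    rw [Real.exp_neg, inv_lt_iff_one_lt_mul₀ hc]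
    nlinarith [sq_nonneg p, sq_nonneg q, sq_nonneg (Real.exp y)]
  have g4 : p ^ 2 + q ^ 2 < K ^ 2 := by nlinarith
  have g5 : |p| ≤ K := abs_le_of_sq_le_sq (by nlinarith [sq_nonneg q]) hKp.le
  have g6 : |q| ≤ K := abs_le_of_sq_le_sq (by nlinarith [sq_nonneg p]) hKp.le
  have g7 : y ≤ K := by
    have := Real.add_one_le_exp y
    linarith
  have g8 : -y ≤ K := by
    have := Real.add_one_le_exp (-y)
    linarith
  rw [mem_closedBall_zero_iff, Prod.norm_def, Prod.norm_def]
  simp only [Real.norm_eq_abs]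
  exact max_le g5 (max_le g6 (abs_le.2 ⟨by linarith, g7⟩))

theorem amgm (c u v : ℝ) (hc : 0 < c) : |u| / (c ^ 2 + u ^ 2 + v ^ 2) ≤ 1 / (2 * c) := by
  rw [div_le_div_iff₀ (by positivity) (by positivity), one_mul]
  have h1 : |u| ^ 2 = u ^ 2 := sq_abs u
  nlinarith [sq_nonneg (c - |u|), sq_nonneg v]

theorem der_p (ν : Measure (ℝ × ℝ)) [IsFiniteMeasure ν] (p q y : ℝ) :
    HasDerivAt (fun p' => Phi ν (p', q, y))
      (∫ z, -2 * ((z.1 - p) / (Real.exp y ^ 2 + (z.1 - p) ^ 2 + (z.2 - q) ^ 2)) ∂ν) p := by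
  have hc := Real.exp_pos y
  refine (hasDerivAt_integral_of_dominated_loc_of_deriv_le
    (F := fun p' z => FF p' q y z)
    (F' := fun p' z => -2 * ((z.1 - p') / (Real.exp y ^ 2 + (z.1 - p') ^ 2 + (z.2 - q) ^ 2)))
    (bound := fun _ => 2 * (1 / (2 * Real.exp y))) (s := univ) Filter.univ_mem
    (Filter.Eventually.of_forall (fun p' => (FF_meas _ _ _).aestronglyMeasurable))
    (FF_int ν p q y) ?_ ?_ (integrable_const _) ?_).2
  · refine Measurable.aestronglyMeasurable ?_
    fun_prop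
  · refine Filter.Eventually.of_forall (fun z p' _ => ?_)
    rw [norm_mul, Real.norm_eq_abs, Real.norm_eq_abs, abs_div]
    have h1 : |(-2 : ℝ)| = 2 := by norm_num
    rw [h1, abs_of_pos (a := Real.exp y ^ 2 + (z.1 - p') ^ 2 + (z.2 - q) ^ 2) (by positivity)]
    exact mul_le_mul_of_nonneg_left (amgm _ _ _ hc) (by norm_num)
  · refine Filter.Eventually.of_forall (fun z p' _ => ?_)
    have hD := DD_pos p' q (Real.exp y) z hc
    have h1 : HasDerivAt (fun x => DD x q (Real.exp y) z) (-2 * (z.1 - p')) p' := by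
      unfold DD
      have h2 : HasDerivAt (fun x : ℝ => z.1 - x) (-1) p' := by
        simpa using (hasDerivAt_id p').const_sub z.1
      have h3 := ((h2.pow 2).const_add (Real.exp y ^ 2)).add_const ((z.2 - q) ^ 2)
      refine h3.congr_deriv ?_
      norm_num
    have h4 := ((h1.log hD.ne').sub_const y).sub_const (Real.log (1 + z.1 ^ 2 + z.2 ^ 2))
    refine h4.congr_deriv ?_
    unfold DD
    ring

theorem der_q (ν : Measure (ℝ × ℝ)) [IsFiniteMeasure ν] (p q y : ℝ) :
    HasDerivAt (fun q' => Phi ν (p, q', y))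
      (∫ z, -2 * ((z.2 - q) / (Real.exp y ^ 2 + (z.1 - p) ^ 2 + (z.2 - q) ^ 2)) ∂ν) q := by
  have hc := Real.exp_pos y
  refine (hasDerivAt_integral_of_dominated_loc_of_deriv_le
    (F := fun q' z => FF p q' y z)
    (F' := fun q' z => -2 * ((z.2 - q') / (Real.exp y ^ 2 + (z.1 - p) ^ 2 + (z.2 - q') ^ 2)))
    (bound := fun _ => 2 * (1 / (2 * Real.exp y))) (s := univ) Filter.univ_mem
    (Filter.Eventually.of_forall (fun q' => (FF_meas _ _ _).aestronglyMeasurable))
    (FF_int ν p q y) ?_ ?_ (integrable_const _) ?_).2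
  · refine Measurable.aestronglyMeasurable ?_
    fun_prop
  · refine Filter.Eventually.of_forall (fun z q' _ => ?_)
    rw [norm_mul, Real.norm_eq_abs, Real.norm_eq_abs, abs_div]
    have h1 : |(-2 : ℝ)| = 2 := by norm_num
    rw [h1, abs_of_pos (a := Real.exp y ^ 2 + (z.1 - p) ^ 2 + (z.2 - q') ^ 2) (by positivity)]
    have h2 := amgm (Real.exp y) (z.2 - q') (z.1 - p) hc
    have h3 : Real.exp y ^ 2 + (z.2 - q') ^ 2 + (z.1 - p) ^ 2 =
      Real.exp y ^ 2 + (z.1 - p) ^ 2 + (z.2 - q') ^ 2 := by ring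
    rw [h3] at h2
    exact mul_le_mul_of_nonneg_left h2 (by norm_num)
  · refine Filter.Eventually.of_forall (fun z q' _ => ?_)
    have hD := DD_pos p q' (Real.exp y) z hc
    have h1 : HasDerivAt (fun x => DD p x (Real.exp y) z) (-2 * (z.2 - q')) q' := by
      unfold DD
      have h2 : HasDerivAt (fun x : ℝ => z.2 - x) (-1) q' := by
        simpa using (hasDerivAt_id q').const_sub z.2
      have h3 := (h2.pow 2).const_add (Real.exp y ^ 2 + (z.1 - p) ^ 2)
      refine h3.congr_deriv ?_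
      norm_num
    have h4 := ((h1.log hD.ne').sub_const y).sub_const (Real.log (1 + z.1 ^ 2 + z.2 ^ 2))
    refine h4.congr_deriv ?_
    unfold DD
    ring

theorem der_y (ν : Measure (ℝ × ℝ)) [IsFiniteMeasure ν] (p q y : ℝ) :
    HasDerivAt (fun y' => Phi ν (p, q, y'))
      (∫ z, (2 * hh p q (Real.exp y) z.1 z.2 - 1) ∂ν) y := by
  have hhb : ∀ (y' : ℝ) (z : ℝ × ℝ), 0 ≤ hh p q (Real.exp y') z.1 z.2 ∧
      hh p q (Real.exp y') z.1 z.2 ≤ 1 := by
    intro y' z
    have hc := Real.exp_pos y'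
    unfold hh
    refine ⟨by positivity, ?_⟩
    rw [div_le_one (by positivity)]
    nlinarith [sq_nonneg (z.1 - p), sq_nonneg (z.2 - q)]
  refine (hasDerivAt_integral_of_dominated_loc_of_deriv_le
    (F := fun y' z => FF p q y' z)
    (F' := fun y' z => 2 * hh p q (Real.exp y') z.1 z.2 - 1)
    (bound := fun _ => 1) (s := univ) Filter.univ_mem
    (Filter.Eventually.of_forall (fun y' => (FF_meas _ _ _).aestronglyMeasurable))
    (FF_int ν p q y) ?_ ?_ (integrable_const _) ?_).2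
  · refine Measurable.aestronglyMeasurable ?_
    unfold hh
    fun_prop
  · refine Filter.Eventually.of_forall (fun z y' _ => ?_)
    obtain ⟨h1, h2⟩ := hhb y' z
    rw [Real.norm_eq_abs, abs_le]
    constructor <;> linarith
  · refine Filter.Eventually.of_forall (fun z y' _ => ?_)
    have hc := Real.exp_pos y'
    have hD := DD_pos p q (Real.exp y') z hc
    have h1 : HasDerivAt (fun x => DD p q (Real.exp x) z) (2 * Real.exp y' ^ 2) y' := by
      unfold DD
      have h2 := (((Real.hasDerivAt_exp y').pow 2).add_const ((z.1 - p) ^ 2)).add_const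
        ((z.2 - q) ^ 2)
      refine h2.congr_deriv ?_
      ring
    have h4 := ((h1.log hD.ne').sub (hasDerivAt_id y')).sub_const
      (Real.log (1 + z.1 ^ 2 + z.2 ^ 2))
    refine h4.congr_deriv ?_
    unfold DD hh
    ring

theorem t_BAR : S_NC → S_BAR := by
  intro hNC ν hfin hne hat
  obtain ⟨δ0, hδ0, hν0⟩ := hNC ν hfin hne hat
  set δ := min δ0 1 with hδ
  have hδp : 0 < δ := lt_min hδ0 one_pos
  have hδ1 : δ ≤ 1 := min_le_right _ _
  have hν : ∀ p q c : ℝ, 0 < c → ν.real {z | qq p q c z.1 z.2 < δ} ≤ ν.real univ / 4 := by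
    intro p q c hc
    refine le_trans ?_ (hν0 p q c hc)
    refine measureReal_mono ?_
    intro z hz
    exact lt_of_lt_of_le (show qq p q c z.1 z.2 < δ from hz) (min_le_left _ _)
  have hm : 0 < ν.real univ := by
    rw [measureReal_def]
    exact ENNReal.toReal_pos hne (measure_ne_top _ _)
  obtain ⟨⟨p, q, y⟩, hmin⟩ := exists_min ν hm δ hδp hδ1 hν
  refine ⟨p, q, Real.exp y, Real.exp_pos y, ?_, ?_, ?_⟩
  · have h1 : IsLocalMin (fun y' => Phi ν (p, q, y')) y :=
      Filter.Eventually.of_forall (fun y' => hmin (p, q, y'))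
    have h2 := h1.hasDerivAt_eq_zero (der_y ν p q y)
    have hi : Integrable (fun z : ℝ × ℝ => hh p q (Real.exp y) z.1 z.2) ν := by
      refine Integrable.of_bound (Measurable.aestronglyMeasurable ?_) 1
        (Filter.Eventually.of_forall (fun z => ?_))
      · unfold hh
        fun_prop
      · have hc := Real.exp_pos y
        rw [Real.norm_eq_abs, abs_of_nonneg (by unfold hh; positivity)]
        unfold hh
        rw [div_le_one (by positivity)]
        nlinarith [sq_nonneg (z.1 - p), sq_nonneg (z.2 - q)]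
    rw [integral_sub (hi.const_mul 2) (integrable_const _), integral_const_mul, integral_const,
      smul_eq_mul, mul_one] at h2
    linarith
  · have h1 : IsLocalMin (fun p' => Phi ν (p', q, y)) p :=
      Filter.Eventually.of_forall (fun p' => hmin (p', q, y))
    have h2 := h1.hasDerivAt_eq_zero (der_p ν p q y)
    rw [integral_const_mul] at h2
    linarith
  · have h1 : IsLocalMin (fun q' => Phi ν (p, q', y)) q :=
      Filter.Eventually.of_forall (fun q' => hmin (p, q', y))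
    have h2 := h1.hasDerivAt_eq_zero (der_q ν p q y)
    rw [integral_const_mul] at h2
    linarith

end Pool.Agent.Run7.h799.MY
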